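import Pool.Agent.Helper14.PS.Classes2
import Pool.Agent.Helper94.CP.Bad

/-!
# Power saving for complete intersections (MP_2ae8fe_ag)

`main_power`: the analogue of `Pool.Agent.Helper6.CI.main_of` with a power of the height, from the
general counting theorem `family_bound_ge`.
-/

set_option autoImplicit false

open Finset MvPolynomial Pool.Agent.Helper11.Cov Pool.Agent.Helper6.RH Pool.Agent.Helper6.CI
  Pool.Agent.Helper14.PS Pool.Agent.Helper94.CP

namespace Pool.Agent.Helper11.CIP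

theorem card_idx_pos {N e : ℕ} (he : 1 ≤ e) (d : Fin e → ℕ) : 1 ≤ Fintype.card (Idx N d) := by
  refine Fintype.card_pos_iff.mpr ⟨⟨⟨0, he⟩, ⟨Finsupp.single 0 (d ⟨0, he⟩), ?_⟩⟩⟩
  exact mem_mon _ (by rw [Finsupp.degree_single])

/-- **The sieve for rational points**, with a power saving. -/
theorem main_power {n N e : ℕ} (he : 1 ≤ e) (a b : Fin n → ℤ) (hg : ∀ i, Good (a i) (b i))
    (hkey : Key5 a b) (I : Set (MvPolynomial (Vars N n) ℤ))
    (hI : ∀ f ∈ I, IsMultiHomogeneous f)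
    (hdim : ∀ (Ω : Type) [Field Ω] [CharZero Ω] (c : Fin n → Fin 3 → Ω),
      (∀ i, OnCurve (a i) (b i) (c i)) →
        ringKrullDim (MvPolynomial (Fin (N + 1)) Ω ⧸ fibreIdeal I c) ≤ e + 1) :
    ∃ D₀ : ℕ, ∀ d : Fin e → ℕ, (∀ i, D₀ ≤ d i) →
      ∃ H₀ : ℕ, ∀ H : ℕ, H₀ ≤ H → ∀ Φ : Fin e → MvPolynomial (Fin (N + 1)) ℤ,
        (∀ i, (Φ i).IsHomogeneous (d i)) →
        (({F ∈ Helper6.RH.Box N d H | ∃ (x : Fin (N + 1) → ℚ) (c : Fin n → Fin 3 → ℚ),
          IsPoint a b I (fun i => Φ i + F i) x c}.ncard : ℕ) : ℝ) ≤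
          ((2 * H + 1 : ℕ) : ℝ) ^ (-(1 / 2000) : ℝ) * (Helper6.RH.Box N d H).ncard := by
  classical
  obtain ⟨D₀, r₀, θ, hθ0, hθ2, hcard⟩ := solC_card he a b I hI hdim
  refine ⟨D₀, fun d hd => ?_⟩
  set K := Fintype.card (Idx N d) with hK
  obtain ⟨N₀, hN₀⟩ := family_bound_ge hkey (card_idx_pos (N := N) he d) (θ := 1 - θ) (by linarith)
    (by linarith) r₀
  refine ⟨N₀, fun H hH Φ hΦ => ?_⟩
  choose Ac Bc Dc hrep using fun (i : Fin n) (Q : (E (a i) (b i)).Point) => exists_irep Q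
  let cP : (∀ i, (E (a i) (b i)).Point) → ∀ l : ℕ, Fin n → Fin 3 → ZMod l := fun P l i =>
    proj (Ac i (P i) : ZMod l) (Bc i (P i) : ZMod l) (Dc i (P i) : ZMod l)
  let eqv : Idx N d ≃ Fin K := Fintype.equivFin _
  let w : ∀ r : ℕ, Idx N d → ZMod r := fun r p => ((toVec d Φ p - H : ℤ) : ZMod r)
  let Bd : (∀ i, (E (a i) (b i)).Point) → ∀ r : ℕ, Finset (Fin K → ZMod r) := fun P r =>
    if hr : r.Prime then
      haveI : Fact r.Prime := ⟨hr⟩
      Finset.univ.filter (fun t => SolC I d (w r) (cP P r) (fun p => t (eqv p))) else ∅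
  let On : (Fin K → ℤ) → (∀ i, (E (a i) (b i)).Point) → Prop := fun t P =>
    ∀ (r : ℕ) [Fact r.Prime], SolC I d (w r) (cP P r) (fun p => ((t (eqv p) : ℤ) : ZMod r))
  have h1 := hN₀ (2 * H + 1) (by omega) On Bd ?_ ?_ ?_
  · set A := {F ∈ Helper6.RH.Box N d H | ∃ (x : Fin (N + 1) → ℚ) (c : Fin n → Fin 3 → ℚ),
          IsPoint a b I (fun i => Φ i + F i) x c} with hA
    have hle : A.ncard ≤ #{t ∈ Bx K (2 * H + 1) | ∃ P, On t P} := by
      rw [← Set.ncard_coe_finset]
      refine Set.ncard_le_ncard_of_injOn (fun F i => toVec d F (eqv.symm i) + H) ?_ ?_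
        (Finset.finite_toSet _)
      · rintro F ⟨hF, x, c, hxc⟩
        rw [mem_coe, mem_filter, mem_Bx]
        refine ⟨fun i => ?_, ?_⟩
        · have h2 := abs_le.mp ((hF (eqv.symm i).1).2 (eqv.symm i).2.1)
          have h3 : toVec d F (eqv.symm i) = (F (eqv.symm i).1).coeff (eqv.symm i).2.1 := rfl
          rw [h3]
          push_cast
          constructor <;> linarith [h2.1, h2.2]
        · obtain ⟨P, hP⟩ := solC_point hg hI (d := d) (fun i => Φ i + F i)
            (fun i => (hΦ i).add (hF i).1) hxc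
          refine ⟨P, fun r hr => ?_⟩
          obtain ⟨z, hz0, hz1, hz2⟩ := hP r (fun i => Ac i (P i)) (fun i => Bc i (P i))
            (fun i => Dc i (P i)) (fun i => hrep i (P i))
          refine ⟨z, hz0, hz1, fun i => ?_⟩
          rw [← hz2 i]
          congr 1
          funext m
          have h3 : toVec d (fun i => Φ i + F i) ⟨i, m⟩ = toVec d Φ ⟨i, m⟩ + toVec d F ⟨i, m⟩ :=
            coeff_add _ _ _
          show ((toVec d Φ ⟨i, m⟩ - H : ℤ) : ZMod r) +
            ((toVec d F (eqv.symm (eqv ⟨i, m⟩)) + H : ℤ) : ZMod r) =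
              0 + ((toVec d (fun i => Φ i + F i) ⟨i, m⟩ : ℤ) : ZMod r)
          rw [eqv.symm_apply_apply, h3]
          push_cast
          ring
      · intro F hF G hG hFG
        refine toVec_injOn d H hF.1 hG.1 ?_
        funext p
        have h2 := congrFun hFG (eqv p)
        simp only [eqv.symm_apply_apply] at h2
        linarith
    have hpos : (0 : ℝ) < ((2 * H + 1 : ℕ) : ℝ) := by positivity
    rw [Helper6.RH.ncard_Box]
    calc (A.ncard : ℝ) ≤ #{t ∈ Bx K (2 * H + 1) | ∃ P, On t P} := by exact_mod_cast hle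
      _ ≤ ((2 * H + 1 : ℕ) : ℝ) ^ ((K : ℝ) - 1 / 2000) := h1
      _ = ((2 * H + 1 : ℕ) : ℝ) ^ (-(1 / 2000) : ℝ) * (((2 * H + 1) ^ K : ℕ) : ℝ) := by
        rw [Nat.cast_pow, ← Real.rpow_natCast, ← Real.rpow_add hpos]
        congr 1
        ring
  · intro P r hr hr0 _
    have hF : Fact r.Prime := ⟨hr⟩
    simp only [Bd, dif_pos hr]
    have h2 := hcard d hd r hr0 (cP P r) (fun i => onCurve_reduce (hrep i (P i)) r) (w r)
      ((Finset.univ.filter (fun t : Fin K → ZMod r => SolC I d (w r) (cP P r)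
        (fun p => t (eqv p)))).image (fun t p => t (eqv p))) (by
        intro c hc
        obtain ⟨t, ht, rfl⟩ := Finset.mem_image.mp hc
        exact (Finset.mem_filter.mp ht).2)
    rwa [Finset.card_image_of_injective _ (by
      intro t t' htt
      funext i
      have := congrFun htt (eqv.symm i)
      simpa only [eqv.apply_symm_apply] using this)] at h2
  · intro t P r hr _ _ hOn
    have hF : Fact r.Prime := ⟨hr⟩
    simp only [Bd, dif_pos hr]
    rw [Finset.mem_filter]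
    exact ⟨Finset.mem_univ _, hOn r⟩
  · intro P P' r hF _ _ hH
    have hr : r.Prime := hF.out
    simp only [Bd, dif_pos hr]
    choose u hu hu' using fun i => proj_cong (r := r) (hrep i (P i)) (hrep i (P' i)) (hH i)
    ext t
    rw [Finset.mem_filter, Finset.mem_filter]
    simp only [Finset.mem_univ, true_and]
    exact (solC_class hI hu (γ := cP P' r) (γ' := cP P r) (fun i j => hu' i j) _).symm

end Pool.Agent.Helper11.CIP
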